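import Pool.Agent.K7.H52.LV_SIN

/-!
# Project LV, job FOU: partial products of sines
-/

set_option autoImplicit false

namespace Pool.Agent.K7.H52.LV

open Finset Pool.Agent.K7.H32.LV
open scoped Real

/-- the Fourier series of `log |1 - r z|` -/
theorem log_series (z : ℂ) (r : ℝ) (hz : ‖z‖ = 1) (h0 : 0 ≤ r) (h1 : r < 1) :
    HasSum (fun h : ℕ => (r ^ (h + 1) / ((h : ℝ) + 1)) * (z ^ (h + 1)).re)
      (-Real.log ‖1 - (r : ℂ) * z‖) := by
  have hlt : ‖(r : ℂ) * z‖ < 1 := by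
    rw [norm_mul, hz, mul_one, Complex.norm_real, Real.norm_eq_abs, abs_of_nonneg h0]
    exact h1
  have h := Complex.hasSum_re (Complex.hasSum_taylorSeries_neg_log hlt)
  rw [Complex.neg_re, Complex.log_re] at h
  rw [← hasSum_nat_add_iff' 1] at h
  simp only [range_one, sum_singleton, pow_zero, Nat.cast_zero, div_zero, Complex.zero_re,
    sub_zero] at h
  have e2 : (fun h : ℕ => (r ^ (h + 1) / ((h : ℝ) + 1)) * (z ^ (h + 1)).re) =
      fun n : ℕ => (((r : ℂ) * z) ^ (n + 1) / ((n + 1 : ℕ) : ℂ)).re := by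
    funext k
    have e : ((r : ℂ) * z) ^ (k + 1) / ((k + 1 : ℕ) : ℂ) =
        ((r ^ (k + 1) / ((k : ℝ) + 1) : ℝ) : ℂ) * z ^ (k + 1) := by
      push_cast
      rw [mul_pow]
      ring
    rw [e, Complex.re_ofReal_mul]
  rw [e2]
  exact h

/-- geometric sums on the unit circle -/
theorem geo_bound (z : ℂ) (hz : ‖z‖ = 1) (h1 : z ≠ 1) (n : ℕ) :
    ‖∑ j ∈ range n, z ^ (j + 1)‖ ≤ 2 / ‖z - 1‖ := by
  have e : ∑ j ∈ range n, z ^ (j + 1) = z * ((z ^ n - 1) / (z - 1)) := by
    rw [← geom_sum_eq h1 n, mul_sum]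
    exact sum_congr rfl fun j _ => by ring
  rw [e, norm_mul, hz, one_mul, norm_div]
  apply div_le_div_of_nonneg_right _ (norm_nonneg _)
  calc ‖z ^ n - 1‖ ≤ ‖z ^ n‖ + ‖(1 : ℂ)‖ := norm_sub_le _ _
    _ = 2 := by rw [norm_pow, hz, one_pow, norm_one]; norm_num

/-- the root of unity -/
noncomputable def ww (N k : ℕ) : ℂ := Complex.exp (Complex.I * ((2 * π * ((k : ℝ) / N) : ℝ) : ℂ))

theorem ww_norm (N k : ℕ) : ‖ww N k‖ = 1 := by
  unfold ww
  rw [mul_comm]
  exact Complex.norm_exp_ofReal_mul_I _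

theorem ww_pow_sub (N k h : ℕ) : ‖ww N k ^ h - 1‖ = 2 * sn N k h := by
  unfold ww sn
  rw [← Complex.exp_nat_mul]
  have e : (h : ℂ) * (Complex.I * ((2 * π * ((k : ℝ) / N) : ℝ) : ℂ)) =
      Complex.I * ((2 * (π * ((h : ℝ) * k / N)) : ℝ) : ℂ) := by
    push_cast
    ring
  rw [e, Complex.norm_exp_I_mul_ofReal_sub_one]
  rw [mul_div_cancel_left₀ _ (two_ne_zero' ℝ), Real.norm_eq_abs, abs_mul]
  norm_num

/-- the residues of `h k` -/
theorem sn_mod (N k h : ℕ) (hN : 0 < N) :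
    sn N k h = |Real.sin (π * (((h * k % N : ℕ) : ℝ) / N))| := by
  rw [← abs_sin_mod N (h * k) hN]
  unfold sn
  push_cast
  rfl

theorem mod_pos (N k h : ℕ) (hk : k.Coprime N) (hh : ¬ N ∣ h) : 0 < h * k % N := by
  rcases Nat.eq_zero_or_pos (h * k % N) with h0 | h0
  · exfalso
    exact hh ((Nat.Coprime.symm hk).dvd_of_dvd_mul_right (Nat.dvd_of_mod_eq_zero h0))
  · exact h0

theorem sn_pos (N k h : ℕ) (hN : 0 < N) (hk : k.Coprime N) (hh : ¬ N ∣ h) : 0 < sn N k h := by
  rw [sn_mod N k h hN, abs_pos]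
  exact ne_of_gt (csc_upper N _ (mod_pos N k h hk hh) (Nat.mod_lt _ hN)).1

/-- the weight of a residue -/
noncomputable def G (N r : ℕ) : ℝ := 1 / (r : ℝ) + 1 / ((N : ℝ) - r)

theorem G_nonneg (N r : ℕ) (h1 : r < N) : 0 ≤ G N r := by
  have : (r : ℝ) < N := by exact_mod_cast h1
  have h3 : 0 ≤ 1 / ((N : ℝ) - r) := div_nonneg zero_le_one (by linarith)
  unfold G
  positivity

theorem G_le (N r : ℕ) (h0 : 0 < r) (h1 : r < N) : G N r ≤ 2 := by
  unfold G
  have h2 : (1 : ℝ) ≤ r := by exact_mod_cast h0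
  have h3 : (1 : ℝ) ≤ (N : ℝ) - r := by
    have : (r : ℝ) + 1 ≤ N := by exact_mod_cast h1
    linarith
  have h4 : 1 / (r : ℝ) ≤ 1 := by rw [div_le_one (by linarith)]; exact h2
  have h5 : 1 / ((N : ℝ) - r) ≤ 1 := by rw [div_le_one (by linarith)]; exact h3
  linarith

theorem csc_le (N k h : ℕ) (hN : 0 < N) (hk : k.Coprime N) (hh : ¬ N ∣ h) :
    1 / sn N k h ≤ (N : ℝ) / 2 * G N (h * k % N) := by
  have h1 := csc_upper N _ (mod_pos N k h hk hh) (Nat.mod_lt (h * k) hN)
  rw [sn_mod N k h hN, abs_of_pos h1.1]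
  exact h1.2

/-- comparison of the two logarithms -/
theorem log_diff (a b t : ℝ) (N : ℝ) (hN : 0 < N) (ha : 0 < a) (hab : |b - a| ≤ 1 / N)
    (ht : 1 / (N * a) ≤ t / 4) (ht2 : t ≤ 2) (hb : 0 < b) : |Real.log b - Real.log a| ≤ t / 2 := by
  have hs : |b / a - 1| ≤ t / 4 := by
    have : b / a - 1 = (b - a) / a := by field_simp
    rw [this, abs_div, abs_of_pos ha]
    refine le_trans ?_ ht
    rw [div_le_iff₀ ha]
    refine hab.trans (le_of_eq ?_)
    field_simp
  have ht0 : 0 ≤ t := by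
    have : 0 ≤ t / 4 := (abs_nonneg _).trans hs
    linarith
  rw [← Real.log_div hb.ne' ha.ne']
  have hpos : 0 < b / a := by positivity
  rw [abs_le] at hs ⊢
  constructor
  · have h1 := Real.one_sub_inv_le_log_of_pos hpos
    have h2 : (b / a)⁻¹ ≤ 1 + t / 2 := by
      rw [inv_le_comm₀ hpos (by linarith)]
      refine le_trans ?_ (by linarith [hs.1] : 1 - t / 4 ≤ b / a)
      rw [inv_le_iff_one_le_mul₀ (by linarith)]
      nlinarith
    linarith
  · have h1 := Real.log_le_sub_one_of_pos hpos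
    linarith [hs.2]

/-- the sum over distinct residues -/
theorem sum_res (N k n : ℕ) (hN : 2 ≤ N) (hk : k.Coprime N) (hn : n < N) :
    ∑ j ∈ range n, G N ((j + 1) * k % N) ≤ 2 * (1 + Real.log N) := by
  refine le_trans ?_ (harm_sum N (by omega))
  have hinj : Set.InjOn (fun j : ℕ => (j + 1) * k % N) (range n) := by
    intro a ha b hb hab
    simp only [coe_range, Set.mem_Iio] at ha hb
    have h1 : (a + 1) * k ≡ (b + 1) * k [MOD N] := hab
    have h2 : a + 1 ≡ b + 1 [MOD N] :=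
      Nat.ModEq.cancel_right_of_coprime (by rw [Nat.gcd_comm]; exact hk) h1
    have h3 : (a + 1) % N = (b + 1) % N := h2
    rw [Nat.mod_eq_of_lt (by omega), Nat.mod_eq_of_lt (by omega)] at h3
    omega
  rw [← sum_image hinj (f := fun r => G N r)]
  apply sum_le_sum_of_subset_of_nonneg
  · intro x hx
    rw [mem_image] at hx
    obtain ⟨j, hj, rfl⟩ := hx
    rw [mem_range] at hj
    rw [mem_Ico]
    refine ⟨mod_pos N k (j + 1) hk ?_, Nat.mod_lt _ (by omega)⟩
    intro hd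
    have := Nat.le_of_dvd (by omega) hd
    omega
  · intro x hx _
    rw [mem_Ico] at hx
    exact G_nonneg N x hx.2

/-- the multiples of `N` -/
theorem mult_sum (N n : ℕ) (hN : 2 ≤ N) (hn : n < N) :
    Summable (fun h : ℕ => if N ∣ h + 1 then
      (1 - 1 / (N : ℝ)) ^ (h + 1) / ((h : ℝ) + 1) * (n : ℝ) else 0) ∧
    ∑' h : ℕ, (if N ∣ h + 1 then
      (1 - 1 / (N : ℝ)) ^ (h + 1) / ((h : ℝ) + 1) * (n : ℝ) else 0) ≤ 1 := by
  have hNr : (2 : ℝ) ≤ N := by exact_mod_cast hN
  set r : ℝ := 1 - 1 / (N : ℝ) with hr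
  have hinv : 1 / (N : ℝ) ≤ 1 / 2 := one_div_le_one_div_of_le (by norm_num) hNr
  have hinv0 : 0 < 1 / (N : ℝ) := by positivity
  have hr0 : 0 ≤ r := by rw [hr]; linarith
  have hr1 : r < 1 := by rw [hr]; linarith
  set q : ℝ := r ^ N with hq
  have hq0 : 0 ≤ q := by positivity
  have hq1 : q ≤ 1 / 2 := by
    have h1 := Real.one_sub_div_pow_le_exp_neg (n := N) (t := 1) (by linarith)
    have h2 := Real.exp_neg_one_lt_d9
    rw [hq, hr]
    refine h1.trans (h2.le.trans (by norm_num))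
  set f : ℕ → ℝ := fun h : ℕ => if N ∣ h + 1 then
      r ^ (h + 1) / ((h : ℝ) + 1) * (n : ℝ) else 0 with hf
  have hf0 : ∀ h, 0 ≤ f h := by
    intro h
    simp only [hf]
    split_ifs
    · positivity
    · exact le_refl _
  have hsum : Summable f := by
    have h1 : Summable (fun h : ℕ => (n : ℝ) * r ^ (h + 1)) :=
      ((summable_nat_add_iff 1).2 (summable_geometric_of_lt_one hr0 hr1)).mul_left _
    refine Summable.of_nonneg_of_le hf0 (fun h => ?_) h1
    simp only [hf]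
    split_ifs
    · have h2 : r ^ (h + 1) / ((h : ℝ) + 1) ≤ r ^ (h + 1) := by
        apply div_le_self (by positivity)
        have : (0 : ℝ) ≤ h := Nat.cast_nonneg h
        linarith
      have h3 : (0 : ℝ) ≤ n := Nat.cast_nonneg n
      nlinarith
    · positivity
  refine ⟨hsum, ?_⟩
  set i : ℕ → ℕ := fun l => N * (l + 1) - 1 with hi
  have hi1 : ∀ l, i l + 1 = N * (l + 1) := by
    intro l
    simp only [hi]
    have : 0 < N * (l + 1) := by positivity
    omega
  have hinj : Function.Injective i := by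
    intro a b hab
    have h1 := hi1 a
    have h2 := hi1 b
    rw [hab, h2] at h1
    have h3 := Nat.eq_of_mul_eq_mul_left (by omega : 0 < N) h1
    omega
  have hsupp : Function.support f ⊆ Set.range i := by
    intro h hh
    rw [Function.mem_support] at hh
    simp only [hf] at hh
    split_ifs at hh with hd
    · obtain ⟨l, hl⟩ := hd
      have hl0 : l ≠ 0 := by rintro rfl; omega
      refine ⟨l - 1, ?_⟩
      have := hi1 (l - 1)
      rw [show l - 1 + 1 = l by omega, ← hl] at this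
      omega
    · exact absurd rfl hh
  rw [← hinj.tsum_eq hsupp]
  have hfi : ∀ l, f (i l) ≤ q ^ (l + 1) := by
    intro l
    have hd : N ∣ i l + 1 := ⟨l + 1, hi1 l⟩
    simp only [hf]
    rw [if_pos hd]
    have hc : ((i l : ℕ) : ℝ) + 1 = N * ((l : ℝ) + 1) := by exact_mod_cast hi1 l
    rw [hc, hi1, pow_mul, ← hq]
    have h3 : (0 : ℝ) < (N : ℝ) * ((l : ℝ) + 1) := by positivity
    have h4 : (n : ℝ) ≤ N * ((l : ℝ) + 1) := by
      have a1 : (n : ℝ) ≤ N := by exact_mod_cast hn.le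
      have a2 : (0 : ℝ) ≤ l := Nat.cast_nonneg l
      nlinarith
    rw [div_mul_eq_mul_div, div_le_iff₀ h3]
    exact mul_le_mul_of_nonneg_left h4 (by positivity)
  have hgs : Summable (fun l : ℕ => q ^ (l + 1)) :=
    (summable_nat_add_iff 1).2 (summable_geometric_of_lt_one hq0 (by linarith))
  have hfs : Summable (fun l => f (i l)) :=
    Summable.of_nonneg_of_le (fun l => hf0 _) hfi hgs
  refine (hfs.tsum_le_tsum hfi hgs).trans ?_
  have e : ∑' l : ℕ, q ^ (l + 1) = q * (1 - q)⁻¹ := by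
    rw [← tsum_geometric_of_lt_one hq0 (by linarith), ← tsum_mul_left]
    exact tsum_congr fun l => by ring
  rw [e, ← div_eq_mul_inv, div_le_one (by linarith)]
  linarith

/-- the other frequencies: summability -/
theorem main_sum (N k : ℕ) (hN : 2 ≤ N) (hk : k.Coprime N) :
    Summable (fun h : ℕ => if N ∣ h + 1 then (0 : ℝ) else
      (1 - 1 / (N : ℝ)) ^ (h + 1) / ((h : ℝ) + 1) * (1 / sn N k (h + 1))) := by
  have hNr : (2 : ℝ) ≤ N := by exact_mod_cast hN
  set r : ℝ := 1 - 1 / (N : ℝ) with hr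
  have hinv : 1 / (N : ℝ) ≤ 1 / 2 := one_div_le_one_div_of_le (by norm_num) hNr
  have hinv0 : 0 < 1 / (N : ℝ) := by positivity
  have hr0 : 0 ≤ r := by rw [hr]; linarith
  have hr1 : r < 1 := by rw [hr]; linarith
  have h1 : Summable (fun h : ℕ => (N : ℝ) * r ^ (h + 1)) :=
    ((summable_nat_add_iff 1).2 (summable_geometric_of_lt_one hr0 hr1)).mul_left _
  refine Summable.of_nonneg_of_le (fun h => ?_) (fun h => ?_) h1
  · split_ifs with hd
    · exact le_refl _
    · have := sn_pos N k (h + 1) (by omega) hk hd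
      positivity
  · split_ifs with hd
    · positivity
    · have h2 : r ^ (h + 1) / ((h : ℝ) + 1) ≤ r ^ (h + 1) := by
        apply div_le_self (by positivity)
        have : (0 : ℝ) ≤ h := Nat.cast_nonneg h
        linarith
      have h3 := csc_le N k (h + 1) (by omega) hk hd
      have h4 := G_le N _ (mod_pos N k (h + 1) hk hd) (Nat.mod_lt _ (by omega))
      have h5 : 1 / sn N k (h + 1) ≤ N := by nlinarith
      have h6 := sn_pos N k (h + 1) (by omega) hk hd
      have h7 : 0 < 1 / sn N k (h + 1) := by positivity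
      have h8 : 0 ≤ r ^ (h + 1) := by positivity
      calc r ^ (h + 1) / ((h : ℝ) + 1) * (1 / sn N k (h + 1))
          ≤ r ^ (h + 1) * (N : ℝ) := mul_le_mul h2 h5 h7.le h8
        _ = _ := by ring

theorem t_fou : S_FOU := by
  intro N k hN hk n hn
  have hNr : (2 : ℝ) ≤ N := by exact_mod_cast hN
  have hN0 : (0 : ℝ) < N := by linarith
  set r : ℝ := 1 - 1 / (N : ℝ) with hr
  have hinv : 1 / (N : ℝ) ≤ 1 / 2 := one_div_le_one_div_of_le (by norm_num) hNr
  have hinv0 : 0 < 1 / (N : ℝ) := by positivity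
  have hr0 : 0 ≤ r := by rw [hr]; linarith
  have hr1 : r < 1 := by rw [hr]; linarith
  have hlog : 0 ≤ Real.log N := Real.log_nonneg (by linarith)
  set w := ww N k with hw
  have hwn : ‖w‖ = 1 := ww_norm N k
  have hwp : ∀ j : ℕ, ‖w ^ j‖ = 1 := fun j => by rw [norm_pow, hwn, one_pow]
  have hws : ∀ j : ℕ, ‖w ^ j - 1‖ = 2 * sn N k j := ww_pow_sub N k
  have hnd : ∀ j ∈ range n, ¬ N ∣ j + 1 := by
    intro j hj hd
    rw [mem_range] at hj
    have := Nat.le_of_dvd (by omega) hd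
    omega
  -- the logarithm of the product
  have hFk : Real.log (Fk N k n) = ∑ j ∈ range n, Real.log (2 * sn N k (j + 1)) := by
    unfold Fk
    apply Real.log_prod
    intro j hj
    have := sn_pos N k (j + 1) (by omega) hk (hnd j hj)
    positivity
  -- the two series
  set b1 : ℕ → ℝ := fun h : ℕ => if N ∣ h + 1 then
      r ^ (h + 1) / ((h : ℝ) + 1) * (n : ℝ) else 0 with hb1
  set b2 : ℕ → ℝ := fun h : ℕ => if N ∣ h + 1 then (0 : ℝ) else
      r ^ (h + 1) / ((h : ℝ) + 1) * (1 / sn N k (h + 1)) with hb2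
  obtain ⟨hs1, hs1'⟩ : Summable b1 ∧ ∑' h, b1 h ≤ 1 := mult_sum N n hN hn
  have hs2 : Summable b2 := main_sum N k hN hk
  have hser : HasSum (fun h : ℕ => ∑ j ∈ range n,
      (r ^ (h + 1) / ((h : ℝ) + 1)) * ((w ^ (j + 1)) ^ (h + 1)).re)
      (∑ j ∈ range n, -Real.log ‖1 - (r : ℂ) * w ^ (j + 1)‖) :=
    hasSum_sum fun j _ => log_series (w ^ (j + 1)) r (hwp _) hr0 hr1
  have hbd : ∀ h : ℕ, ‖∑ j ∈ range n,
      (r ^ (h + 1) / ((h : ℝ) + 1)) * ((w ^ (j + 1)) ^ (h + 1)).re‖ ≤ b1 h + b2 h := by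
    intro h
    have e : ∑ j ∈ range n, (r ^ (h + 1) / ((h : ℝ) + 1)) * ((w ^ (j + 1)) ^ (h + 1)).re =
        (r ^ (h + 1) / ((h : ℝ) + 1)) * (∑ j ∈ range n, (w ^ (h + 1)) ^ (j + 1)).re := by
      rw [Complex.re_sum, mul_sum]
      refine sum_congr rfl fun j _ => ?_
      rw [← pow_mul, ← pow_mul, mul_comm (j + 1)]
    have hc : 0 ≤ r ^ (h + 1) / ((h : ℝ) + 1) := by positivity
    rw [e, norm_mul, Real.norm_eq_abs, abs_of_nonneg hc, Real.norm_eq_abs]
    have hre := Complex.abs_re_le_norm (∑ j ∈ range n, (w ^ (h + 1)) ^ (j + 1))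
    by_cases hd : N ∣ h + 1
    · simp only [hb1, hb2]
      rw [if_pos hd, if_pos hd, add_zero]
      apply mul_le_mul_of_nonneg_left _ hc
      refine hre.trans ((norm_sum_le _ _).trans ?_)
      rw [sum_congr rfl (fun j _ => by rw [← pow_mul, hwp] :
        ∀ j ∈ range n, ‖(w ^ (h + 1)) ^ (j + 1)‖ = 1)]
      simp
    · simp only [hb1, hb2]
      rw [if_neg hd, if_neg hd, zero_add]
      apply mul_le_mul_of_nonneg_left _ hc
      have hp := sn_pos N k (h + 1) (by omega) hk hd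
      have hne : w ^ (h + 1) ≠ 1 := by
        intro h1
        have := hws (h + 1)
        rw [h1, sub_self, norm_zero] at this
        linarith
      refine hre.trans ((geo_bound _ (hwp _) hne n).trans (le_of_eq ?_))
      rw [hws]
      field_simp
  have hA := hser.norm_le_of_bounded (hs1.hasSum.add hs2.hasSum) hbd
  rw [sum_neg_distrib, norm_neg, Real.norm_eq_abs] at hA
  -- the difference
  have hB : ∀ j ∈ range n, |Real.log ‖1 - (r : ℂ) * w ^ (j + 1)‖ -
      Real.log (2 * sn N k (j + 1))| ≤ G N ((j + 1) * k % N) / 2 := by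
    intro j hj
    have hp := sn_pos N k (j + 1) (by omega) hk (hnd j hj)
    have hm := mod_pos N k (j + 1) hk (hnd j hj)
    apply log_diff (2 * sn N k (j + 1)) _ _ (N : ℝ) hN0 (by positivity)
    · rw [← hws, norm_sub_rev (w ^ (j + 1)) 1]
      refine (abs_norm_sub_norm_le _ _).trans (le_of_eq ?_)
      have e : (1 - (r : ℂ) * w ^ (j + 1)) - (1 - w ^ (j + 1)) =
          ((1 / (N : ℝ) : ℝ) : ℂ) * w ^ (j + 1) := by
        rw [hr]
        push_cast
        ring
      rw [e, norm_mul, hwp, mul_one, Complex.norm_real, Real.norm_eq_abs, abs_of_pos hinv0]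
    · have h3 := csc_le N k (j + 1) (by omega) hk (hnd j hj)
      have e : 1 / ((N : ℝ) * (2 * sn N k (j + 1))) = 1 / sn N k (j + 1) * (1 / (2 * N)) := by
        field_simp
      rw [e]
      calc 1 / sn N k (j + 1) * (1 / (2 * (N : ℝ)))
          ≤ (N : ℝ) / 2 * G N ((j + 1) * k % N) * (1 / (2 * (N : ℝ))) :=
            mul_le_mul_of_nonneg_right h3 (by positivity)
        _ = _ := by field_simp; ring
    · exact G_le N _ hm (Nat.mod_lt _ (by omega))
    · rw [norm_pos_iff]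
      intro h0
      have h1 : (r : ℂ) * w ^ (j + 1) = 1 := by
        rw [sub_eq_zero] at h0
        exact h0.symm
      have h2 : ‖(r : ℂ) * w ^ (j + 1)‖ = 1 := by rw [h1, norm_one]
      rw [norm_mul, hwp, mul_one, Complex.norm_real, Real.norm_eq_abs, abs_of_nonneg hr0] at h2
      linarith
  have hC : |∑ j ∈ range n, Real.log ‖1 - (r : ℂ) * w ^ (j + 1)‖ -
      ∑ j ∈ range n, Real.log (2 * sn N k (j + 1))| ≤ 1 + Real.log N := by
    rw [← sum_sub_distrib]
    refine (abs_sum_le_sum_abs _ _).trans ((sum_le_sum hB).trans ?_)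
    rw [← sum_div]
    have := sum_res N k n hN hk hn
    linarith
  rw [hFk]
  have hMk : Mk N k = 2 * (1 + Real.log N) + ∑' h, b2 h := rfl
  rw [hMk]
  rw [abs_le] at hA hC ⊢
  constructor
  · linarith [hA.1, hA.2, hC.1, hC.2]
  · linarith [hA.1, hA.2, hC.1, hC.2]

end Pool.Agent.K7.H52.LV
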