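import Pool.Agent.K7.H32.LV.Stm

/-!
# Project LV, job SIN: a cosecant sum
-/

set_option autoImplicit false

namespace Pool.Agent.K7.H52.LV

open Finset Pool.Agent.K7.H32.LV
open scoped Real

/-- periodicity of `|sin|` -/
theorem abs_sin_mod (N m : ℕ) (hN : 0 < N) :
    |Real.sin (π * ((m : ℝ) / N))| = |Real.sin (π * (((m % N : ℕ) : ℝ) / N))| := by
  have h1 : (m : ℝ) = ((m % N : ℕ) : ℝ) + N * ((m / N : ℕ) : ℝ) := by
    have := Nat.mod_add_div m N
    exact_mod_cast this.symm
  have hN' : (N : ℝ) ≠ 0 := by positivity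
  have h2 : π * ((m : ℝ) / N) = π * (((m % N : ℕ) : ℝ) / N) + ((m / N : ℕ) : ℝ) * π := by
    rw [h1]
    field_simp
  rw [h2, Real.sin_add_nat_mul_pi, abs_mul, abs_pow, abs_neg, abs_one, one_pow, one_mul]

/-- Jordan's inequality on the two halves -/
theorem sin_lower (N r : ℕ) (h0 : 0 < r) (h1 : r < N) :
    (2 * (r : ℝ) / N ≤ Real.sin (π * ((r : ℝ) / N)) ∨
      2 * ((N : ℝ) - r) / N ≤ Real.sin (π * ((r : ℝ) / N))) := by
  have hN : (0 : ℝ) < N := by exact_mod_cast (by omega : 0 < N)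
  have hr : (0 : ℝ) < r := by exact_mod_cast h0
  have hrN : (r : ℝ) < N := by exact_mod_cast h1
  have hpi := Real.pi_pos
  rcases le_total (2 * (r : ℝ)) N with h | h
  · left
    have := Real.mul_le_sin (x := π * ((r : ℝ) / N)) (by positivity)
      (by
        rw [mul_div_assoc']
        rw [div_le_div_iff₀ hN (by norm_num)]
        nlinarith)
    refine le_trans (le_of_eq ?_) this
    field_simp
  · right
    have e : π * ((r : ℝ) / N) = π - π * (((N : ℝ) - r) / N) := by
      field_simp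
      ring
    rw [e, Real.sin_pi_sub]
    have := Real.mul_le_sin (x := π * (((N : ℝ) - r) / N))
      (by
        have : 0 ≤ ((N : ℝ) - r) / N := div_nonneg (by linarith) hN.le
        positivity)
      (by
        rw [mul_div_assoc']
        rw [div_le_div_iff₀ hN (by norm_num)]
        nlinarith)
    refine le_trans (le_of_eq ?_) this
    field_simp

/-- the cosecant at `r / N` -/
theorem csc_upper (N r : ℕ) (h0 : 0 < r) (h1 : r < N) :
    0 < Real.sin (π * ((r : ℝ) / N)) ∧
    1 / Real.sin (π * ((r : ℝ) / N)) ≤ (N : ℝ) / 2 * (1 / (r : ℝ) + 1 / ((N : ℝ) - r)) := by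
  have hN : (0 : ℝ) < N := by exact_mod_cast (by omega : 0 < N)
  have hr : (0 : ℝ) < r := by exact_mod_cast h0
  have hrN : (0 : ℝ) < (N : ℝ) - r := by
    have : (r : ℝ) < N := by exact_mod_cast h1
    linarith
  rcases sin_lower N r h0 h1 with h | h
  · have hp : 0 < 2 * (r : ℝ) / N := by positivity
    refine ⟨lt_of_lt_of_le hp h, ?_⟩
    calc 1 / Real.sin (π * ((r : ℝ) / N)) ≤ 1 / (2 * (r : ℝ) / N) :=
          one_div_le_one_div_of_le hp h
      _ = (N : ℝ) / 2 * (1 / (r : ℝ)) := by field_simp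
      _ ≤ _ := by
          apply mul_le_mul_of_nonneg_left _ (by positivity)
          have : 0 < 1 / ((N : ℝ) - r) := by positivity
          linarith
  · have hp : 0 < 2 * ((N : ℝ) - r) / N := by positivity
    refine ⟨lt_of_lt_of_le hp h, ?_⟩
    calc 1 / Real.sin (π * ((r : ℝ) / N)) ≤ 1 / (2 * ((N : ℝ) - r) / N) :=
          one_div_le_one_div_of_le hp h
      _ = (N : ℝ) / 2 * (1 / ((N : ℝ) - r)) := by field_simp
      _ ≤ _ := by
          apply mul_le_mul_of_nonneg_left _ (by positivity)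
          have : 0 < 1 / (r : ℝ) := by positivity
          linarith

/-- the harmonic sum, folded -/
theorem harm_sum (N : ℕ) (hN : 1 ≤ N) :
    ∑ r ∈ Ico 1 N, (1 / (r : ℝ) + 1 / ((N : ℝ) - r)) ≤ 2 * (1 + Real.log N) := by
  rw [sum_add_distrib]
  have e1 : ∑ r ∈ Ico 1 N, 1 / ((N : ℝ) - r) = ∑ r ∈ Ico 1 N, 1 / (r : ℝ) := by
    refine sum_bij' (fun r _ => N - r) (fun r _ => N - r) ?_ ?_ ?_ ?_ ?_
    · intro r hr; rw [mem_Ico] at hr ⊢; omega
    · intro r hr; rw [mem_Ico] at hr ⊢; omega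
    · intro r hr; rw [mem_Ico] at hr; omega
    · intro r hr; rw [mem_Ico] at hr; omega
    · intro r hr
      rw [mem_Ico] at hr
      rw [Nat.cast_sub (by omega)]
  rw [e1]
  have e2 : ∑ r ∈ Ico 1 N, 1 / (r : ℝ) = ((harmonic (N - 1) : ℚ) : ℝ) := by
    rw [harmonic_eq_sum_Icc]
    push_cast
    have : Icc 1 (N - 1) = Ico 1 N := by ext; simp only [mem_Icc, mem_Ico]; omega
    rw [this]
    simp
  have e3 := harmonic_le_one_add_log (N - 1)
  have e4 : Real.log ((N - 1 : ℕ) : ℝ) ≤ Real.log N := by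
    rcases Nat.eq_zero_or_pos (N - 1) with h | h
    · rw [h]
      simp only [Nat.cast_zero, Real.log_zero]
      exact Real.log_nonneg (by exact_mod_cast hN)
    · exact Real.log_le_log (by exact_mod_cast h) (by exact_mod_cast (by omega : N - 1 ≤ N))
  rw [e2]
  linarith

theorem t_sin : S_SIN := by
  intro N h hN hh
  -- reduce the fraction
  set d := Nat.gcd h N with hd
  have hdpos : 0 < d := Nat.gcd_pos_of_pos_right _ (by omega)
  obtain ⟨h', hh'⟩ : d ∣ h := Nat.gcd_dvd_left _ _
  obtain ⟨N', hN'⟩ : d ∣ N := Nat.gcd_dvd_right _ _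
  have hcop : Nat.Coprime h' N' := by
    have := Nat.coprime_div_gcd_div_gcd (m := h) (n := N) (by rw [← hd]; exact hdpos)
    rw [← hd] at this
    have a1 : h / d = h' := by
      conv_lhs => rw [hh']
      exact Nat.mul_div_cancel_left _ hdpos
    have a2 : N / d = N' := by
      conv_lhs => rw [hN']
      exact Nat.mul_div_cancel_left _ hdpos
    rwa [a1, a2] at this
  have hN'1 : 1 < N' := by
    rcases Nat.lt_or_ge 1 N' with h1 | h1
    · exact h1
    · exfalso
      have : N' ≠ 0 := by rintro rfl; omega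
      have h2 : N' = 1 := by omega
      apply hh
      rw [h2, mul_one] at hN'
      rw [hN']
      exact ⟨h', hh'⟩
  have hNr : (N : ℝ) = d * N' := by exact_mod_cast hN'
  have hdr : (0 : ℝ) < d := by exact_mod_cast hdpos
  have hN'r : (0 : ℝ) < N' := by exact_mod_cast (by omega : 0 < N')
  -- the residues
  have hres : ∀ k : ℕ, k.Coprime N → 0 < (h' * k) % N' := by
    intro k hk
    rcases Nat.eq_zero_or_pos ((h' * k) % N') with h0 | h0
    · exfalso
      have h1 : N' ∣ h' * k := Nat.dvd_of_mod_eq_zero h0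
      have h2 : N' ∣ k := (Nat.Coprime.symm hcop).dvd_of_dvd_mul_left h1
      have h3 : N' ∣ N := ⟨d, by rw [hN']; ring⟩
      have h4 : N' ∣ 1 := by
        have := Nat.dvd_gcd h2 h3
        rwa [hk] at this
      have := Nat.le_of_dvd one_pos h4
      omega
    · exact h0
  have hsn : ∀ k : ℕ, sn N k h = |Real.sin (π * ((((h' * k) % N' : ℕ) : ℝ) / N'))| := by
    intro k
    rw [← abs_sin_mod N' (h' * k) (by omega)]
    unfold sn
    congr 3
    rw [hNr]
    have : (h : ℝ) = d * h' := by exact_mod_cast hh'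
    rw [this]
    push_cast
    field_simp
  set g : ℕ × ℕ → ℝ := fun x => (N' : ℝ) / 2 * (1 / (x.2 : ℝ) + 1 / ((N' : ℝ) - x.2)) with hg
  set f : ℕ → ℕ × ℕ := fun k => (k / N', (h' * k) % N') with hf
  set S := (range N).filter (fun k => k.Coprime N) with hS
  have hinj : Set.InjOn f S := by
    intro a ha b hb hab
    simp only [hf, Prod.mk.injEq] at hab
    obtain ⟨h1, h2⟩ := hab
    have h3 : a % N' = b % N' := by
      have : h' * a ≡ h' * b [MOD N'] := h2
      exact Nat.ModEq.cancel_left_of_coprime (by rw [Nat.gcd_comm]; exact hcop) this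
    rw [← Nat.div_add_mod a N', ← Nat.div_add_mod b N', h1, h3]
  have hmem : ∀ k ∈ S, f k ∈ (range d) ×ˢ (Ico 1 N') := by
    intro k hk
    rw [hS, mem_filter, mem_range] at hk
    rw [mem_product, mem_range, mem_Ico]
    refine ⟨?_, hres k hk.2, Nat.mod_lt _ (by omega)⟩
    simp only [hf]
    apply Nat.div_lt_of_lt_mul
    rw [mul_comm, ← hN']
    exact hk.1
  have step1 : ∑ k ∈ S, 1 / sn N k h ≤ ∑ k ∈ S, g (f k) := by
    apply sum_le_sum
    intro k hk
    rw [hS, mem_filter, mem_range] at hk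
    have h1 := csc_upper N' ((h' * k) % N') (hres k hk.2) (Nat.mod_lt _ (by omega))
    rw [hsn k, abs_of_pos h1.1]
    exact h1.2
  have step2 : ∑ k ∈ S, g (f k) ≤ ∑ x ∈ (range d) ×ˢ (Ico 1 N'), g x := by
    rw [← sum_image hinj (f := g)]
    apply sum_le_sum_of_subset_of_nonneg
    · intro x hx
      rw [mem_image] at hx
      obtain ⟨k, hk, rfl⟩ := hx
      exact hmem k hk
    · intro x hx _
      rw [mem_product, mem_range, mem_Ico] at hx
      have h1 : (1 : ℝ) ≤ x.2 := by exact_mod_cast hx.2.1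
      have h2 : (x.2 : ℝ) < N' := by exact_mod_cast hx.2.2
      have h3 : 0 ≤ 1 / ((N' : ℝ) - x.2) := by
        apply div_nonneg zero_le_one
        linarith
      simp only [hg]
      positivity
  have step3 : ∑ x ∈ (range d) ×ˢ (Ico 1 N'), g x ≤ N * (1 + Real.log N) := by
    rw [sum_product]
    simp only [hg]
    rw [sum_const, card_range, nsmul_eq_mul, ← mul_sum]
    have h1 := harm_sum N' (by omega)
    have h2 : Real.log N' ≤ Real.log N := by
      apply Real.log_le_log hN'r
      rw [hNr]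
      have : (1 : ℝ) ≤ d := by exact_mod_cast hdpos
      nlinarith
    have h3 : 0 ≤ (d : ℝ) * (N' / 2) := by positivity
    calc (d : ℝ) * ((N' : ℝ) / 2 * ∑ r ∈ Ico 1 N', (1 / (r : ℝ) + 1 / ((N' : ℝ) - r)))
        = (d : ℝ) * (N' / 2) * ∑ r ∈ Ico 1 N', (1 / (r : ℝ) + 1 / ((N' : ℝ) - r)) := by ring
      _ ≤ (d : ℝ) * (N' / 2) * (2 * (1 + Real.log N)) := by
          apply mul_le_mul_of_nonneg_left _ h3
          linarith
      _ = N * (1 + Real.log N) := by rw [hNr]; ring
  exact step1.trans (step2.trans step3)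

end Pool.Agent.K7.H52.LV
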