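import Mathlib
import Pool.Agent.K7.H97.MI.Defs

/-!
Project MI (MP_4e44b6_al), job BASE2: base maps for the sets `Iic a ∪ Ici b` with `0 < a < b` or
`a < b < 0`.
-/

set_option autoImplicit false
set_option linter.unusedVariables false

namespace Pool.Agent.K7.H52.MIB2

open Pool.Agent.K7.H97.MI Set

/-! ### real functions -/

noncomputable def X (t : ℝ) : ℝ := -t * (1 - t) ^ 2 / (1 + t ^ 2) ^ 2

noncomputable def gg (t : ℝ) : ℝ := (1 - t) / (1 + t ^ 2)

noncomputable def kk (α β : ℝ) (j : ℕ) (e : ℝ) : ℝ :=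
  α * gg e * X e ^ j + β * ((1 + e) / (1 + e ^ 2)) * ((1 + e) ^ 2 / (2 * (1 + e ^ 2))) ^ 2

theorem dpos (t : ℝ) : 0 < 1 + t ^ 2 := by positivity

theorem X_le_one (t : ℝ) : X t ≤ 1 := by
  unfold X
  rw [div_le_one (by positivity)]
  nlinarith [mul_nonneg (sq_nonneg (t + 1)) (by nlinarith [sq_nonneg (t - 1 / 2)] : (0 : ℝ) ≤ t ^ 2 - t + 1)]

theorem X_ge (t : ℝ) : -(1 / 8) ≤ X t := by
  unfold X
  rw [le_div_iff₀ (by positivity)]
  nlinarith [sq_nonneg (t ^ 2 - 4 * t + 1)]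

theorem mul_gg_sq (t : ℝ) : t * gg t ^ 2 = -X t := by
  unfold gg X
  have := (dpos t).ne'
  field_simp

theorem X_cont : Continuous X := by
  unfold X
  exact Continuous.div (by fun_prop) (by fun_prop) (fun t => (pow_pos (dpos t) 2).ne')

theorem gg_cont : Continuous gg := by
  unfold gg
  exact Continuous.div (by fun_prop) (by fun_prop) (fun t => (dpos t).ne')

theorem kk_cont (α β : ℝ) (j : ℕ) : Continuous (kk α β j) := by
  unfold kk
  have h1 : Continuous fun e : ℝ => (1 + e) / (1 + e ^ 2) :=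
    Continuous.div (by fun_prop) (by fun_prop) (fun t => (dpos t).ne')
  have h2 : Continuous fun e : ℝ => (1 + e) ^ 2 / (2 * (1 + e ^ 2)) :=
    Continuous.div (by fun_prop) (by fun_prop) (fun t => by have := dpos t; positivity)
  exact (((continuous_const.mul gg_cont).mul (X_cont.pow j)).add
    ((continuous_const.mul h1).mul (h2.pow 2)))

theorem pow_ineq {x : ℝ} (h0 : 0 ≤ x) (h1 : x ≤ 1) (M : ℕ) :
    (M : ℝ) * (1 - x) ^ 2 ≤ x ^ (M + 1) - (M + 1) * x + M := by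
  induction M with
  | zero => simp
  | succ M ih =>
    have h2 : (0 : ℝ) ≤ x ^ (M + 1) - (M + 1) * x + M := le_trans (by positivity) ih
    have h3 := mul_nonneg h0 h2
    push_cast
    have : x ^ (M + 1 + 1) - (M + 1 + 1) * x + (M + 1)
        = x * (x ^ (M + 1) - (M + 1) * x + M) + (M + 1) * (1 - x) ^ 2 := by ring
    rw [this]
    linarith

/-- the positive half -/
theorem cont_pos {α β y : ℝ} {i : ℕ} (hα : 0 < α) (hβ : 0 < β) (hy : 0 < y)
    (hC : α * (1 / 8) ^ i ≤ 3 / 4 * β) :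
    (y * kk α β (i + 1) (y ^ 2)) ^ 2 ≤ β ^ 2 * (1 + X (y ^ 2) / 4) := by
  set S := y * (1 - y ^ 2) / (1 + y ^ 4) with hS
  set V := y * (1 + y ^ 2) / (1 + y ^ 4) with hV
  set q := 2 * y ^ 2 / (1 + y ^ 4) with hq
  have hd : (0 : ℝ) < 1 + y ^ 4 := by positivity
  have hq0 : 0 ≤ q := by positivity
  have hq1 : q ≤ 1 := by
    rw [hq, div_le_one hd]; nlinarith [sq_nonneg (y ^ 2 - 1)]
  have hV0 : 0 ≤ V := by positivity
  have hS2 : S ^ 2 = q * (1 - q) / 2 := by
    rw [hS, hq]; field_simp; ring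
  have hV2 : V ^ 2 = q * (1 + q) / 2 := by
    rw [hV, hq]; field_simp; ring
  have hX : X (y ^ 2) = -S ^ 2 := by
    rw [hS]; unfold X; field_simp
  have hk : y * kk α β (i + 1) (y ^ 2)
      = α * S * (-S ^ 2) ^ (i + 1) + β * V * ((1 + q) / 2) ^ 2 := by
    unfold kk
    rw [hX]
    have e1 : y * gg (y ^ 2) = S := by
      rw [hS]; unfold gg; field_simp
    have e2 : y * ((1 + y ^ 2) / (1 + (y ^ 2) ^ 2)) = V := by
      rw [hV]; field_simp
    have e3 : (1 + y ^ 2) ^ 2 / (2 * (1 + (y ^ 2) ^ 2)) = (1 + q) / 2 := by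
      rw [hq]; field_simp; ring
    rw [e3, ← e1, ← e2]; ring
  have hv0 : 0 ≤ S ^ 2 := sq_nonneg _
  have hv8 : S ^ 2 ≤ 1 / 8 := by rw [hS2]; nlinarith [sq_nonneg (q - 1 / 2)]
  have hSabs : |S| ≤ 1 := abs_le_one_iff_mul_self_le_one.mpr (by nlinarith)
  have hVle : V ≤ (1 + q) / 2 := by
    refine (pow_le_pow_iff_left₀ hV0 (by positivity) two_ne_zero).mp ?_
    rw [hV2]; nlinarith
  have hpow : (S ^ 2) ^ i ≤ (1 / 8) ^ i := pow_le_pow_left₀ hv0 hv8 i
  have hpow0 : 0 ≤ (S ^ 2) ^ i := pow_nonneg hv0 i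
  -- the first summand
  have h1 : |α * S * (-S ^ 2) ^ (i + 1)| ≤ 3 / 4 * β * S ^ 2 := by
    rw [abs_mul, abs_mul, abs_pow, abs_neg, abs_of_pos hα, abs_of_nonneg hv0, pow_succ]
    have : α * |S| * (S ^ 2) ^ i ≤ 3 / 4 * β := by
      refine le_trans ?_ hC
      calc α * |S| * (S ^ 2) ^ i ≤ α * 1 * (1 / 8) ^ i := by
            apply mul_le_mul (mul_le_mul_of_nonneg_left hSabs hα.le) hpow hpow0 (by positivity)
        _ = α * (1 / 8) ^ i := by ring
    calc α * |S| * ((S ^ 2) ^ i * S ^ 2) = α * |S| * (S ^ 2) ^ i * S ^ 2 := by ring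
      _ ≤ 3 / 4 * β * S ^ 2 := mul_le_mul_of_nonneg_right this hv0
  have h2 : |β * V * ((1 + q) / 2) ^ 2| ≤ β * (1 - S ^ 2) := by
    rw [abs_of_nonneg (by positivity), mul_assoc]
    apply mul_le_mul_of_nonneg_left _ hβ.le
    have : ((1 + q) / 2) ^ 2 ≤ 1 := by nlinarith
    calc V * ((1 + q) / 2) ^ 2 ≤ V * 1 := mul_le_mul_of_nonneg_left this hV0
      _ ≤ (1 + q) / 2 := by linarith
      _ ≤ 1 - S ^ 2 := by rw [hS2]; nlinarith
  have h3 : |y * kk α β (i + 1) (y ^ 2)| ≤ β * (1 - S ^ 2 / 4) := by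
    rw [hk]
    refine (abs_add_le _ _).trans ?_
    linarith
  have h4 : (y * kk α β (i + 1) (y ^ 2)) ^ 2 ≤ (β * (1 - S ^ 2 / 4)) ^ 2 := by
    rw [← sq_abs]
    exact pow_le_pow_left₀ (abs_nonneg _) h3 2
  refine h4.trans ?_
  rw [hX, mul_pow]
  apply mul_le_mul_of_nonneg_left _ (sq_nonneg _)
  nlinarith

/-- the negative half -/
theorem cont_neg {α β y : ℝ} {i : ℕ} (hα : 0 < α) (hβ : 0 < β) (hy : 0 < y)
    (hD : β ≤ 2 * (i + 1) * α) :
    2 * (i + 1) * α ^ 2 * ((1 + 1 / (2 * (i + 1))) * X (-y ^ 2) - 1)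
      ≤ (y * kk α β (i + 1) (-y ^ 2)) ^ 2 := by
  set S := y * (1 - y ^ 2) / (1 + y ^ 4) with hS
  set V := y * (1 + y ^ 2) / (1 + y ^ 4) with hV
  set q := 2 * y ^ 2 / (1 + y ^ 4) with hq
  have hd : (0 : ℝ) < 1 + y ^ 4 := by positivity
  have hq0 : 0 ≤ q := by positivity
  have hq1 : q ≤ 1 := by
    rw [hq, div_le_one hd]; nlinarith [sq_nonneg (y ^ 2 - 1)]
  have hV0 : 0 ≤ V := by positivity
  have hS2 : S ^ 2 = q * (1 - q) / 2 := by
    rw [hS, hq]; field_simp; ring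
  have hV2 : V ^ 2 = q * (1 + q) / 2 := by
    rw [hV, hq]; field_simp; ring
  have hX : X (-y ^ 2) = V ^ 2 := by
    rw [hV]; unfold X; field_simp; ring
  have hk : y * kk α β (i + 1) (-y ^ 2)
      = α * V * (V ^ 2) ^ (i + 1) + β * S * ((1 - q) / 2) ^ 2 := by
    unfold kk
    rw [hX]
    have e1 : y * gg (-y ^ 2) = V := by
      rw [hV]; unfold gg; field_simp; ring
    have e2 : y * ((1 + -y ^ 2) / (1 + (-y ^ 2) ^ 2)) = S := by
      rw [hS]; field_simp; ring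
    have e3 : (1 + -y ^ 2) ^ 2 / (2 * (1 + (-y ^ 2) ^ 2)) = (1 - q) / 2 := by
      rw [hq]; field_simp; ring
    rw [e3, ← e1, ← e2]; ring
  have hX0 : 0 ≤ V ^ 2 := sq_nonneg _
  have hX1 : V ^ 2 ≤ 1 := by rw [hV2]; nlinarith
  have hSabs : |S| ≤ 1 / 2 := by
    apply abs_le_of_sq_le_sq _ (by norm_num)
    rw [hS2]; nlinarith [sq_nonneg (q - 1 / 2)]
  have hVle1 : V ≤ 1 := by nlinarith
  have h1 : |β * S * ((1 - q) / 2) ^ 2| ≤ β * (1 - V ^ 2) ^ 2 / 8 := by
    rw [abs_mul, abs_mul, abs_of_pos hβ, abs_of_nonneg (sq_nonneg ((1 - q) / 2))]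
    have h11 : ((1 - q) / 2) ^ 2 ≤ (1 - V ^ 2) ^ 2 / 4 := by
      have : 1 - q ≤ 1 - V ^ 2 := by rw [hV2]; nlinarith
      have := pow_le_pow_left₀ (by linarith) this 2
      linarith
    calc β * |S| * ((1 - q) / 2) ^ 2 ≤ β * (1 / 2) * ((1 - V ^ 2) ^ 2 / 4) := by
          apply mul_le_mul (mul_le_mul_of_nonneg_left hSabs hβ.le) h11 (sq_nonneg _) (by positivity)
      _ = β * (1 - V ^ 2) ^ 2 / 8 := by ring
  set T := α * V * (V ^ 2) ^ (i + 1) with hT
  have hT0 : 0 ≤ T := by positivity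
  have hT1 : T ≤ α := by
    have : V * (V ^ 2) ^ (i + 1) ≤ 1 := mul_le_one₀ hVle1 (by positivity) (pow_le_one₀ hX0 hX1)
    calc T = α * (V * (V ^ 2) ^ (i + 1)) := by rw [hT]; ring
      _ ≤ α * 1 := mul_le_mul_of_nonneg_left this hα.le
      _ = α := by ring
  have hT2 : T ^ 2 = α ^ 2 * (V ^ 2) ^ (2 * (i + 1) + 1) := by rw [hT]; ring
  have h2 : T ^ 2 - 2 * α * (β * (1 - V ^ 2) ^ 2 / 8) ≤ (y * kk α β (i + 1) (-y ^ 2)) ^ 2 := by
    rw [hk]
    set o := β * S * ((1 - q) / 2) ^ 2 with ho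
    have h21 : -(T * |o|) ≤ T * o := by
      have := neg_abs_le o
      nlinarith
    have h22 : T * |o| ≤ α * (β * (1 - V ^ 2) ^ 2 / 8) :=
      mul_le_mul hT1 h1 (abs_nonneg _) hα.le
    nlinarith [sq_nonneg o]
  refine le_trans ?_ h2
  rw [hT2, hX]
  have h3 := pow_ineq hX0 hX1 (2 * (i + 1))
  push_cast at h3
  have h4 : 2 * ((i : ℝ) + 1) * α ^ 2 * ((1 + 1 / (2 * (i + 1))) * V ^ 2 - 1)
      = α ^ 2 * ((2 * (i + 1) + 1) * V ^ 2 - 2 * (i + 1)) := by
    have : (i : ℝ) + 1 ≠ 0 := by positivity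
    field_simp
  rw [h4]
  have h5 : α * β * (1 - V ^ 2) ^ 2 ≤ 2 * (i + 1) * α ^ 2 * (1 - V ^ 2) ^ 2 := by
    have := mul_le_mul_of_nonneg_left hD hα.le
    have := mul_le_mul_of_nonneg_right this (sq_nonneg (1 - V ^ 2))
    linarith
  have h6 : 0 ≤ α * β * (1 - V ^ 2) ^ 2 := by positivity
  have h7 := mul_le_mul_of_nonneg_left h3 (sq_nonneg α)
  linarith

theorem X_nonpos {t : ℝ} (ht : 0 ≤ t) : X t ≤ 0 := by
  unfold X
  apply div_nonpos_of_nonpos_of_nonneg _ (by positivity)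
  nlinarith [mul_nonneg ht (sq_nonneg (1 - t))]

theorem X_nonneg {t : ℝ} (ht : t ≤ 0) : 0 ≤ X t := by
  unfold X
  apply div_nonneg _ (by positivity)
  nlinarith [mul_nonneg (neg_nonneg.mpr ht) (sq_nonneg (1 - t))]

/-- the parameters -/
structure Par (a b : ℝ) where
  i : ℕ
  α : ℝ
  β : ℝ
  ha : 0 < a
  hb : 0 < b
  hα : 0 < α
  hβ : 0 < β
  hαa : 2 * (i + 1) * α ^ 2 * a = 1
  hβb : β ^ 2 * b = 1
  hC : α * (1 / 8) ^ i ≤ 3 / 4 * β
  hD : β ≤ 2 * (i + 1) * α

theorem exists_par {a b : ℝ} (ha : 0 < a) (hab : a < b) : Nonempty (Par a b) := by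
  have hb : 0 < b := ha.trans hab
  obtain ⟨i, hi⟩ := exists_pow_lt_of_lt_one (x := 3 / 4 * Real.sqrt (1 / b) / Real.sqrt (1 / a))
    (y := (1 / 8 : ℝ)) (by positivity) (by norm_num)
  have hi1 : (0 : ℝ) < i + 1 := by positivity
  have hα2 : Real.sqrt (1 / (a * (2 * (i + 1)))) ^ 2 = 1 / (a * (2 * (i + 1))) :=
    Real.sq_sqrt (by positivity)
  have hβ2 : Real.sqrt (1 / b) ^ 2 = 1 / b := Real.sq_sqrt (by positivity)
  refine ⟨⟨i, Real.sqrt (1 / (a * (2 * (i + 1)))), Real.sqrt (1 / b), ha, hb, by positivity,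
    by positivity, ?_, ?_, ?_, ?_⟩⟩
  · rw [hα2]; field_simp
  · rw [hβ2]; field_simp
  · rw [lt_div_iff₀ (by positivity)] at hi
    have h1 : Real.sqrt (1 / (a * (2 * (i + 1)))) ≤ Real.sqrt (1 / a) := by
      apply Real.sqrt_le_sqrt
      apply one_div_le_one_div_of_le ha
      nlinarith
    have h2 : (0 : ℝ) ≤ (1 / 8) ^ i := by positivity
    nlinarith [mul_le_mul_of_nonneg_right h1 h2]
  · have h1 : Real.sqrt (1 / b) ≤ 2 * (i + 1) * Real.sqrt (1 / (a * (2 * (i + 1)))) := by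
      refine (pow_le_pow_iff_left₀ (by positivity) (by positivity) two_ne_zero).mp ?_
      rw [mul_pow, hα2, hβ2]
      have : (2 * ((i : ℝ) + 1)) ^ 2 * (1 / (a * (2 * (i + 1)))) = 2 * (i + 1) / a := by
        field_simp
      rw [this, div_le_div_iff₀ hb ha]
      nlinarith
    exact h1

/-- the ratio as a function of `e` and `m` -/
noncomputable def RR {a b : ℝ} (p : Par a b) (e m : ℝ) : ℝ :=
  (1 - (1 + 1 / (2 * (p.i + 1))) * X e * X m) / (e * kk p.α p.β (p.i + 1) e ^ 2)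

theorem contain {a b : ℝ} (p : Par a b) (e m : ℝ) (he : e ≠ 0)
    (hk : kk p.α p.β (p.i + 1) e ≠ 0) : RR p e m ≤ a ∨ b ≤ RR p e m := by
  obtain ⟨i, α, β, ha, hb, hα, hβ, hαa, hβb, hC, hD⟩ := p
  unfold RR
  simp only at hk ⊢
  set N2 : ℝ := 1 + 1 / (2 * (i + 1)) with hN2
  have hi1 : (0 : ℝ) < i + 1 := by positivity
  have hN0 : 0 < N2 := by positivity
  have hN1 : N2 ≤ 3 / 2 := by
    have : 1 / (2 * ((i : ℝ) + 1)) ≤ 1 / 2 := by
      apply one_div_le_one_div_of_le (by norm_num)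
      have : (0 : ℝ) ≤ i := by positivity
      linarith
    linarith
  have hk2 : 0 < kk α β (i + 1) e ^ 2 := by positivity
  rcases lt_or_gt_of_ne he with h | h
  · left
    have hy : 0 < Real.sqrt (-e) := Real.sqrt_pos.mpr (by linarith)
    have hye : -Real.sqrt (-e) ^ 2 = e := by rw [Real.sq_sqrt (by linarith)]; ring
    have h1 := cont_neg hα hβ hy hD
    rw [hye, mul_pow, Real.sq_sqrt (by linarith), ← hN2] at h1
    have hF : e * kk α β (i + 1) e ^ 2 < 0 := mul_neg_of_neg_of_pos h hk2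
    rw [div_le_iff_of_neg hF]
    have hXe := X_nonneg h.le
    have h2 : N2 * X e * X m ≤ N2 * X e := by
      have := mul_le_mul_of_nonneg_left (X_le_one m) (mul_nonneg hN0.le hXe)
      linarith
    have h3 := mul_le_mul_of_nonneg_left h1 ha.le
    have h4 : a * (2 * (↑i + 1) * α ^ 2 * (N2 * X e - 1)) = N2 * X e - 1 := by
      calc a * (2 * (↑i + 1) * α ^ 2 * (N2 * X e - 1))
          = (2 * (↑i + 1) * α ^ 2 * a) * (N2 * X e - 1) := by ring
        _ = N2 * X e - 1 := by rw [hαa, one_mul]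
    rw [h4] at h3
    linarith
  · right
    have hy : 0 < Real.sqrt e := Real.sqrt_pos.mpr h
    have hye : Real.sqrt e ^ 2 = e := Real.sq_sqrt h.le
    have h1 := cont_pos hα hβ hy hC
    rw [mul_pow, hye] at h1
    have hF : 0 < e * kk α β (i + 1) e ^ 2 := mul_pos h hk2
    rw [le_div_iff₀ hF]
    have hXe := X_nonpos h.le
    have h2 : X e * X m ≤ X e * (-(1 / 8)) := mul_le_mul_of_nonpos_left (X_ge m) hXe
    have h3 : N2 * (X e * X m) ≤ N2 * (X e * (-(1 / 8))) := mul_le_mul_of_nonneg_left h2 hN0.le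
    have h4 : N2 * (X e * (-(1 / 8))) ≤ 3 / 2 * (X e * (-(1 / 8))) := by
      apply mul_le_mul_of_nonneg_right hN1
      nlinarith
    have h5 := mul_le_mul_of_nonneg_left h1 hb.le
    have h6 : b * (β ^ 2 * (1 + X e / 4)) = 1 + X e / 4 := by
      calc b * (β ^ 2 * (1 + X e / 4)) = (β ^ 2 * b) * (1 + X e / 4) := by ring
        _ = 1 + X e / 4 := by rw [hβb, one_mul]
    rw [h6] at h5
    nlinarith

theorem kk_one (α β : ℝ) (j : ℕ) : kk α β j 1 = β := by
  unfold kk gg; norm_num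

theorem X_neg_one : X (-1) = 1 := by unfold X; norm_num

theorem X_zero : X 0 = 0 := by unfold X; norm_num

theorem kk_neg_one (α β : ℝ) (j : ℕ) : kk α β j (-1) = α := by
  unfold kk gg; rw [X_neg_one]; norm_num

/-- coverage -/
theorem cover {a b : ℝ} (p : Par a b) (r : ℝ) (hr : r < a ∨ b < r) :
    (∃ e : ℝ, e ≠ 0 ∧ kk p.α p.β (p.i + 1) e ≠ 0 ∧ RR p e 0 = r) ∨
    (∃ m : ℝ, m ≤ 0 ∧ RR p (-1) m = r) := by
  obtain ⟨i, α, β, ha, hb, hα, hβ, hαa, hβb, hC, hD⟩ := p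
  unfold RR
  simp only [X_zero, mul_zero, sub_zero, X_neg_one, kk_neg_one, mul_one]
  set f : ℝ → ℝ := fun e => e * kk α β (i + 1) e ^ 2 with hf
  have hfc : Continuous f := continuous_id.mul ((kk_cont α β (i + 1)).pow 2)
  have key : ∀ e, f e ≠ 0 → e ≠ 0 ∧ kk α β (i + 1) e ≠ 0 := by
    intro e he
    constructor
    · rintro rfl; exact he (by simp [hf])
    · intro h; exact he (by simp [hf, h])
  have f1 : f 1 = β ^ 2 := by simp [hf, kk_one]
  have f0 : f 0 = 0 := by simp [hf]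
  have fm : f (-1) = -α ^ 2 := by simp [hf, kk_neg_one]
  have hi1 : (0 : ℝ) < i + 1 := by positivity
  rcases hr with hr | hr
  · by_cases hr2 : r < -(1 / α ^ 2)
    · left
      have hr0 : r < 0 := hr2.trans (by rw [neg_lt_zero]; positivity)
      have hmem : 1 / r ∈ Icc (f (-1)) (f 0) := by
        rw [f0, fm]
        constructor
        · rw [le_div_iff_of_neg hr0]
          have : 1 < -r * α ^ 2 := by
            have h2 : 1 / α ^ 2 < -r := by linarith
            rwa [div_lt_iff₀ (by positivity)] at h2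
          linarith
        · exact (div_neg_of_pos_of_neg one_pos hr0).le
      obtain ⟨e, -, he⟩ := intermediate_value_Icc (by norm_num) hfc.continuousOn hmem
      have hne : f e ≠ 0 := by rw [he]; exact div_ne_zero one_ne_zero hr0.ne
      refine ⟨e, (key e hne).1, (key e hne).2, ?_⟩
      change 1 / f e = r
      rw [he, one_div_one_div]
    · right
      rw [not_lt] at hr2
      set g : ℝ → ℝ := fun m => (1 - (1 + 1 / (2 * ((i : ℝ) + 1))) * X m) / (-1 * α ^ 2) with hg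
      have hgc : Continuous g := (continuous_const.sub (continuous_const.mul X_cont)).div_const _
      have g0 : g 0 = -(1 / α ^ 2) := by simp [hg, X_zero]
      have g1 : g (-1) = a := by
        simp only [hg, X_neg_one]
        have : a = 1 / (2 * (i + 1) * α ^ 2) := by
          rw [eq_div_iff (by positivity)]; linarith
        rw [this]; field_simp; ring
      have hmem : r ∈ Icc (g 0) (g (-1)) := by rw [g0, g1]; exact ⟨hr2, hr.le⟩
      obtain ⟨m, hm, hm2⟩ := intermediate_value_Icc' (by norm_num) hgc.continuousOn hmem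
      exact ⟨m, hm.2, hm2⟩
  · left
    have hr0 : 0 < r := hb.trans hr
    have hmem : 1 / r ∈ Icc (f 0) (f 1) := by
      rw [f0, f1]
      constructor
      · positivity
      · rw [div_le_iff₀ hr0]
        nlinarith [mul_pos hβ hβ]
    obtain ⟨e, -, he⟩ := intermediate_value_Icc (by norm_num) hfc.continuousOn hmem
    have hne : f e ≠ 0 := by rw [he]; exact div_ne_zero one_ne_zero hr0.ne'
    refine ⟨e, (key e hne).1, (key e hne).2, ?_⟩
    change 1 / f e = r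
    rw [he, one_div_one_div]

/-! ### closure properties -/

/-- `PR` under a name of this namespace -/
def PS (f : Om → ℝ) : Prop := TR (fun x => f x • (1 : M2))

theorem PS.const (r : ℝ) : PS (fun _ => r) := TR.const r

theorem PS.add {f g : Om → ℝ} (hf : PS f) (hg : PS g) : PS (fun x => f x + g x) := by
  have := TR.add hf hg
  simpa only [PS, add_smul] using this

theorem PS.mul {f g : Om → ℝ} (hf : PS f) (hg : PS g) : PS (fun x => f x * g x) := by
  have := TR.mul hf hg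
  simpa only [PS, smul_mul_smul_comm, one_mul] using this

theorem TR_smul {f : Om → ℝ} {P : Om → M2} (hf : PS f) (hP : TR P) : TR (fun x => f x • P x) := by
  have := TR.mul hf hP
  simpa only [smul_mul_assoc, one_mul] using this

theorem PS.pow {f : Om → ℝ} (hf : PS f) (n : ℕ) : PS (fun x => f x ^ n) := by
  induction n with
  | zero => simpa using PS.const 1
  | succ n ih => simpa only [pow_succ] using ih.mul hf

theorem PS.trace {P : Om → M2} (hP : TR P) : PS (fun x => (P x).trace) := TR.tr hP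

theorem PS.neg {f : Om → ℝ} (hf : PS f) : PS (fun x => -f x) := by
  simpa using (PS.const (-1)).mul hf

theorem PS.sub {f g : Om → ℝ} (hf : PS f) (hg : PS g) : PS (fun x => f x - g x) := by
  simpa [sub_eq_add_neg] using hf.add hg.neg

theorem PS.ht {P : Om → M2} (hP : TR P) : PS (fun x => ht (P x)) := by
  simpa [Pool.Agent.K7.H97.MI.ht, div_eq_mul_inv] using (PS.trace hP).mul (PS.const 2⁻¹)

theorem TR_sub {P Q : Om → M2} (hP : TR P) (hQ : TR Q) : TR (fun x => P x - Q x) := by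
  have := hP.add (TR_smul (PS.const (-1)) hQ)
  simpa [sub_eq_add_neg] using this

theorem TR_tl {P : Om → M2} (hP : TR P) : TR (fun x => tl (P x)) :=
  TR_sub hP (PS.ht hP)

theorem dd_eq (T : M2) : dd T = (T * T).trace / 2 - (T.trace) ^ 2 / 4 := by
  unfold dd
  rw [Matrix.det_fin_two, Matrix.trace_fin_two, Matrix.trace_fin_two, Matrix.mul_apply,
    Matrix.mul_apply]
  simp only [Fin.sum_univ_two]
  ring

theorem PS.dd {P : Om → M2} (hP : TR P) : PS (fun x => dd (P x)) := by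
  have h1 := (PS.trace (hP.mul hP)).mul (PS.const 2⁻¹)
  have h2 := ((PS.trace hP).pow 2).mul (PS.const 4⁻¹)
  have := h1.sub h2
  simpa only [dd_eq, div_eq_mul_inv] using this

/-- quotients of real elements of the trace ring by positive ones -/
def QR (f : Om → ℝ) : Prop := ∃ D : Om → ℝ, PS D ∧ (∀ x, 0 < D x) ∧ PS (fun x => D x * f x)

/-- the same for matrices -/
def QT (P : Om → M2) : Prop := ∃ D : Om → ℝ, PS D ∧ (∀ x, 0 < D x) ∧ TR (fun x => D x • P x)

theorem QR.of {f : Om → ℝ} (hf : PS f) : QR f :=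
  ⟨fun _ => 1, PS.const 1, fun _ => one_pos, by simpa using hf⟩

theorem QR.mul {f g : Om → ℝ} (hf : QR f) (hg : QR g) : QR (fun x => f x * g x) := by
  obtain ⟨D, hD, hD0, h1⟩ := hf
  obtain ⟨E, hE, hE0, h2⟩ := hg
  refine ⟨fun x => D x * E x, hD.mul hE, fun x => mul_pos (hD0 x) (hE0 x), ?_⟩
  have := h1.mul h2
  simpa only [mul_mul_mul_comm] using this

theorem QR.add {f g : Om → ℝ} (hf : QR f) (hg : QR g) : QR (fun x => f x + g x) := by
  obtain ⟨D, hD, hD0, h1⟩ := hf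
  obtain ⟨E, hE, hE0, h2⟩ := hg
  refine ⟨fun x => D x * E x, hD.mul hE, fun x => mul_pos (hD0 x) (hE0 x), ?_⟩
  have := (h1.mul hE).add (h2.mul hD)
  convert this using 2
  ring

theorem QR.pow {f : Om → ℝ} (hf : QR f) (n : ℕ) : QR (fun x => f x ^ n) := by
  induction n with
  | zero => simpa using QR.of (PS.const 1)
  | succ n ih => simpa only [pow_succ] using ih.mul hf

theorem QR.div {f g : Om → ℝ} (hf : QR f) (hg : PS g) (hg0 : ∀ x, 0 < g x) :
    QR (fun x => f x / g x) := by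
  obtain ⟨D, hD, hD0, h1⟩ := hf
  refine ⟨fun x => D x * g x, hD.mul hg, fun x => mul_pos (hD0 x) (hg0 x), ?_⟩
  convert h1 using 2 with x
  have := (hg0 x).ne'
  field_simp

theorem QR.sub {f g : Om → ℝ} (hf : QR f) (hg : QR g) : QR (fun x => f x - g x) := by
  have := hf.add ((QR.of (PS.const (-1))).mul hg)
  simpa [sub_eq_add_neg] using this

theorem QR.const (r : ℝ) : QR (fun _ => r) := QR.of (PS.const r)

theorem QT.of {P : Om → M2} (hP : TR P) : QT P :=
  ⟨fun _ => 1, PS.const 1, fun _ => one_pos, by simpa using hP⟩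

theorem QT.smul {f : Om → ℝ} {P : Om → M2} (hf : QR f) (hP : QT P) : QT (fun x => f x • P x) := by
  obtain ⟨D, hD, hD0, h1⟩ := hf
  obtain ⟨E, hE, hE0, h2⟩ := hP
  refine ⟨fun x => D x * E x, hD.mul hE, fun x => mul_pos (hD0 x) (hE0 x), ?_⟩
  have := TR_smul h1 h2
  convert this using 2
  rw [smul_smul, smul_smul]; congr 1; ring

theorem QT.add {P Q : Om → M2} (hP : QT P) (hQ : QT Q) : QT (fun x => P x + Q x) := by
  obtain ⟨D, hD, hD0, h1⟩ := hP
  obtain ⟨E, hE, hE0, h2⟩ := hQ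
  refine ⟨fun x => D x * E x, hD.mul hE, fun x => mul_pos (hD0 x) (hE0 x), ?_⟩
  have := (TR_smul hE h1).add (TR_smul hD h2)
  convert this using 2
  rw [smul_add, smul_smul, smul_smul]
  congr 2
  ring

theorem ht_smul (c : ℝ) (T : M2) : ht (c • T) = c * ht T := by
  unfold ht; rw [Matrix.trace_smul, smul_eq_mul]; ring

theorem dd_smul (c : ℝ) (T : M2) : dd (c • T) = c ^ 2 * dd T := by
  unfold dd; rw [Matrix.trace_smul, smul_eq_mul, Matrix.det_smul, Fintype.card_fin]; ring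

theorem rr_smul {c : ℝ} (hc : 0 < c) (T : M2) : rr (c • T) = rr T := by
  unfold rr
  rw [ht_smul, dd_smul, mul_pow, mul_div_mul_left _ _ (pow_pos hc 2).ne']

/-- a base map with denominators -/
theorem baseOK_of_QT {J : Set ℝ} {P : Om → M2} (hP : QT P)
    (h1 : ∀ x, ht (P x) ≠ 0 → rr (P x) ∈ J) (Z : Finset ℝ)
    (h2 : ∀ r ∈ interior J, r ∉ Z → ∃ x, ht (P x) ≠ 0 ∧ rr (P x) = r) : BaseOK J := by
  obtain ⟨D, hD, hD0, h⟩ := hP
  refine ⟨fun x => D x • P x, h, fun x hx => ?_, Z, fun r hr hrZ => ?_⟩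
  · rw [rr_smul (hD0 x)]
    apply h1
    intro h0
    apply hx
    rw [ht_smul, h0, mul_zero]
  · obtain ⟨x, hx, hx2⟩ := h2 r hr hrZ
    exact ⟨x, by rw [ht_smul]; exact mul_ne_zero (hD0 x).ne' hx, by rw [rr_smul (hD0 x), hx2]⟩

/-! ### the map -/

/-- `m` as a function of the two variables -/
noncomputable def mm (x : Om) : ℝ := dd (x 0) * dd (x 1) - ((tl (x 0) * tl (x 1)).trace / 2) ^ 2

noncomputable def cc (x : Om) : M2 :=
  (2⁻¹ : ℝ) • (tl (x 0) * tl (x 1) - tl (x 1) * tl (x 0))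

noncomputable def PP (α β ν σ : ℝ) (j : ℕ) (x : Om) : M2 :=
  (dd (x 0) * kk α β j (σ * dd (x 0))) • (1 : M2) + (tl (x 0) +
    (dd (x 0) * (ν * (gg (σ * dd (x 0)) * gg (σ * mm x)))) • cc x)

theorem ht_form (κ γ : ℝ) (A B : M2) :
    ht (κ • (1 : M2) + (tl A + γ • ((2⁻¹ : ℝ) • (tl A * tl B - tl B * tl A)))) = κ := by
  unfold ht tl ht
  simp [Matrix.trace_fin_two, Matrix.mul_apply, Fin.sum_univ_two]
  ring

theorem dd_form (κ γ : ℝ) (A B : M2) :
    dd (κ • (1 : M2) + (tl A + γ • ((2⁻¹ : ℝ) • (tl A * tl B - tl B * tl A))))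
      = dd A - (dd A * dd B - ((tl A * tl B).trace / 2) ^ 2) * γ ^ 2 := by
  unfold dd tl ht
  simp [Matrix.trace_fin_two, Matrix.det_fin_two, Matrix.mul_apply, Fin.sum_univ_two]
  ring

theorem ht_PP (α β ν σ : ℝ) (j : ℕ) (x : Om) :
    ht (PP α β ν σ j x) = dd (x 0) * kk α β j (σ * dd (x 0)) := ht_form _ _ _ _

theorem dd_PP (α β ν σ : ℝ) (j : ℕ) (x : Om) :
    dd (PP α β ν σ j x) = dd (x 0) - mm x *
      (dd (x 0) * (ν * (gg (σ * dd (x 0)) * gg (σ * mm x)))) ^ 2 := dd_form _ _ _ _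

theorem QT_PP (α β ν σ : ℝ) (j : ℕ) : QT (PP α β ν σ j) := by
  have h0 : PS (fun x => dd (x 0)) := PS.dd (TR.var 0)
  have h1 : PS (fun x => dd (x 1)) := PS.dd (TR.var 1)
  have ht0 : TR (fun x => tl (x 0)) := TR_tl (TR.var 0)
  have ht1 : TR (fun x => tl (x 1)) := TR_tl (TR.var 1)
  have hm : PS (fun x => mm x) := by
    have := (h0.mul h1).sub (((PS.trace (ht0.mul ht1)).mul (PS.const 2⁻¹)).pow 2)
    simpa only [mm, div_eq_mul_inv] using this
  have hc : TR cc := by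
    have := TR_smul (PS.const 2⁻¹) (TR_sub (ht0.mul ht1) (ht1.mul ht0))
    exact this
  have hgg : ∀ f : Om → ℝ, PS f → QR (fun x => gg (f x)) := fun f hf =>
    (QR.of ((PS.const 1).sub hf)).div ((PS.const 1).add (hf.pow 2)) (fun x => dpos _)
  have hX : ∀ f : Om → ℝ, PS f → QR (fun x => X (f x)) := fun f hf =>
    (QR.of (hf.neg.mul (((PS.const 1).sub hf).pow 2))).div (((PS.const 1).add (hf.pow 2)).pow 2)
      (fun x => pow_pos (dpos _) 2)
  have hkk : ∀ f : Om → ℝ, PS f → QR (fun x => kk α β j (f x)) := fun f hf => by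
    have e1 : QR (fun x => (1 + f x) / (1 + f x ^ 2)) :=
      (QR.of ((PS.const 1).add hf)).div ((PS.const 1).add (hf.pow 2)) (fun x => dpos _)
    have e2 : QR (fun x => (1 + f x) ^ 2 / (2 * (1 + f x ^ 2))) :=
      (QR.of (((PS.const 1).add hf).pow 2)).div ((PS.const 2).mul ((PS.const 1).add (hf.pow 2)))
        (fun x => mul_pos two_pos (dpos _))
    exact (((QR.const α).mul (hgg f hf)).mul ((hX f hf).pow j)).add
      (((QR.const β).mul e1).mul (e2.pow 2))
  have hs0 : PS (fun x : Om => σ * dd (x 0)) := (PS.const σ).mul h0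
  have hsm : PS (fun x : Om => σ * mm x) := (PS.const σ).mul hm
  have hone : QT (fun _ : Om => (1 : M2)) := QT.of (by simpa using TR.const 1)
  exact (QT.smul ((QR.of h0).mul (hkk _ hs0)) hone).add
    ((QT.of ht0).add (QT.smul ((QR.of h0).mul ((QR.const ν).mul ((hgg _ hs0).mul (hgg _ hsm))))
      (QT.of hc)))

/-- the ratio of the map -/
theorem rr_PP {a b : ℝ} (p : Par a b) {σ ν : ℝ} (hσ : σ ^ 2 = 1)
    (hν : ν ^ 2 = 1 + 1 / (2 * (p.i + 1))) (x : Om) (h0 : dd (x 0) ≠ 0)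
    (hk : kk p.α p.β (p.i + 1) (σ * dd (x 0)) ≠ 0) :
    σ * rr (PP p.α p.β ν σ (p.i + 1) x) = RR p (σ * dd (x 0)) (σ * mm x) := by
  have hσ0 : σ ≠ 0 := by rintro rfl; norm_num at hσ
  unfold rr RR
  rw [ht_PP, dd_PP, ← hν]
  have h1 := mul_gg_sq (σ * dd (x 0))
  have h2 := mul_gg_sq (σ * mm x)
  have h3 : X (σ * dd (x 0)) = -(σ * dd (x 0) * gg (σ * dd (x 0)) ^ 2) := by linarith
  have h4 : X (σ * mm x) = -(σ * mm x * gg (σ * mm x) ^ 2) := by linarith
  rw [h3, h4]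
  set K := kk p.α p.β (p.i + 1) (σ * dd (x 0))
  set e := dd (x 0)
  set m := mm x
  set g1 := gg (σ * e)
  set g2 := gg (σ * m)
  have h5 : (1 - ν ^ 2 * -(σ * e * g1 ^ 2) * -(σ * m * g2 ^ 2)) = 1 - ν ^ 2 * e * m * g1 ^ 2 * g2 ^ 2 := by
    have : ν ^ 2 * -(σ * e * g1 ^ 2) * -(σ * m * g2 ^ 2)
        = σ ^ 2 * (ν ^ 2 * e * m * g1 ^ 2 * g2 ^ 2) := by ring
    rw [this, hσ, one_mul]
  rw [h5, ← mul_div_assoc, div_eq_div_iff (pow_ne_zero 2 (mul_ne_zero h0 hk))
    (mul_ne_zero (mul_ne_zero hσ0 h0) (pow_ne_zero 2 hk))]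
  have : σ * (e - m * (e * (ν * (g1 * g2))) ^ 2) * (σ * e * K ^ 2)
      = σ ^ 2 * ((e - m * (e * (ν * (g1 * g2))) ^ 2) * (e * K ^ 2)) := by ring
  rw [this, hσ]
  ring

/-- test points -/
noncomputable def pt (s t : ℝ) : Om := fun n => if n = 0 then !![0, 1; s, 0] else !![t, 0; 0, -t]

theorem dd_pt (s t : ℝ) : dd (pt s t 0) = s := by
  simp [pt, dd, Matrix.trace_fin_two, Matrix.det_fin_two]

theorem mm_pt (s t : ℝ) : mm (pt s t) = s * t ^ 2 := by
  simp [mm, pt, dd, tl, ht, Matrix.trace_fin_two, Matrix.det_fin_two]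
  left
  ring

theorem base {a b : ℝ} (p : Par a b) {σ : ℝ} (hσ : σ ^ 2 = 1) :
    BaseOK {r | σ * r ≤ a ∨ b ≤ σ * r} := by
  have hν : Real.sqrt (1 + 1 / (2 * (p.i + 1))) ^ 2 = 1 + 1 / (2 * (p.i + 1)) :=
    Real.sq_sqrt (by positivity)
  have hσ0 : σ ≠ 0 := by rintro rfl; norm_num at hσ
  set ν := Real.sqrt (1 + 1 / (2 * (p.i + 1)))
  refine baseOK_of_QT (QT_PP p.α p.β ν σ (p.i + 1)) (fun x hx => ?_) {σ * a, σ * b}
    (fun r hr hrZ => ?_)
  · rw [ht_PP] at hx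
    have h0 := left_ne_zero_of_mul hx
    have hk := right_ne_zero_of_mul hx
    change σ * rr _ ≤ a ∨ b ≤ σ * rr _
    rw [rr_PP p hσ hν x h0 hk]
    exact contain p _ _ (mul_ne_zero hσ0 h0) hk
  · have hr1 := interior_subset hr
    simp only [Finset.mem_insert, Finset.mem_singleton, not_or] at hrZ
    have hsr : ∀ c : ℝ, r ≠ σ * c → σ * r ≠ c := by
      intro c hc h
      apply hc
      rw [← h, ← mul_assoc, ← sq, hσ, one_mul]
    have hr2 : σ * r < a ∨ b < σ * r := by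
      rcases hr1 with h | h
      · exact Or.inl (lt_of_le_of_ne h (hsr a hrZ.1))
      · exact Or.inr (lt_of_le_of_ne h (hsr b hrZ.2).symm)
    have hfin : ∀ e m t : ℝ, e ≠ 0 → kk p.α p.β (p.i + 1) e ≠ 0 → e * t ^ 2 = m →
        RR p e m = σ * r → ∃ x, ht (PP p.α p.β ν σ (p.i + 1) x) ≠ 0 ∧
          rr (PP p.α p.β ν σ (p.i + 1) x) = r := by
      intro e m t he hk hm hR
      have e1 : σ * dd (pt (σ * e) t 0) = e := by
        rw [dd_pt, ← mul_assoc, ← sq, hσ, one_mul]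
      have e2 : σ * mm (pt (σ * e) t) = m := by
        rw [mm_pt, ← hm, ← mul_assoc, ← mul_assoc, ← sq, hσ, one_mul]
      have e0 : dd (pt (σ * e) t 0) ≠ 0 := by rw [dd_pt]; exact mul_ne_zero hσ0 he
      refine ⟨pt (σ * e) t, ?_, ?_⟩
      · rw [ht_PP, e1]; exact mul_ne_zero e0 hk
      · have := rr_PP p hσ hν (pt (σ * e) t) e0 (by rw [e1]; exact hk)
        rw [e1, e2, hR] at this
        exact mul_left_cancel₀ hσ0 this
    rcases cover p (σ * r) hr2 with ⟨e, he, hk, hR⟩ | ⟨m, hm, hR⟩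
    · exact hfin e 0 0 he hk (by ring) hR
    · refine hfin (-1) m (Real.sqrt (-m)) (by norm_num) ?_ ?_ hR
      · rw [kk_neg_one]; exact p.hα.ne'
      · rw [Real.sq_sqrt (by linarith)]; ring

/-- JOB BASE2 -/
theorem base2 : StB2 := by
  intro a b hab h
  rcases h with h | h
  · obtain ⟨p⟩ := exists_par h hab
    have := base p (σ := 1) (by norm_num)
    convert this using 1
    ext r
    simp
  · obtain ⟨p⟩ := exists_par (a := -b) (b := -a) (by linarith) (by linarith)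
    have := base p (σ := -1) (by norm_num)
    convert this using 1
    ext r
    simp only [mem_union, mem_Iic, mem_Ici, mem_ofPred_eq, neg_mul, one_mul, neg_le_neg_iff]
    exact or_comm

end Pool.Agent.K7.H52.MIB2
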